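import Pool.Agent.Hhelper20.HF.Final

namespace Pool.Agent.Results.MP_0e580c_ag.HeatSOS

/-- For every polynomial `f` that is non-negative on the plane there is `T > 0` such that the heat
polynomial `∑ tᵏ/k! Δᵏ f` is a sum of squares of polynomials for all `t ≥ T`. -/
theorem result (f : MvPolynomial (Fin 2) ℝ) (hf : ∀ x : Fin 2 → ℝ, 0 ≤ MvPolynomial.eval x f) :
    ∃ T : ℝ, 0 < T ∧ ∀ t ≥ T, IsSumSq (HF.heat t f) :=
  HF.heat_sos f hf

end Pool.Agent.Results.MP_0e580c_ag.HeatSOS
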